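import Pool.Agent.Helper89.TQ.Ctx

set_option autoImplicit false
set_option linter.all false
set_option maxHeartbeats 4000000

namespace Pool.Agent.Helper46.TQ

open Pool.Agent.Helper89.TQ

theorem c2_11_22_33_k0 {n1 n2 n3 A1 A2 A3 B1 B2 B3 m11_1 m11_2 m11_3 m12_1 m12_2 m12_3 m13_1 m13_2 m13_3 m22_1 m22_2 m22_3 m33_1 m33_2 m33_3 : ℤ}
    (C : Ctx2 n1 n2 n3 A1 A2 A3 B1 B2 B3 m11_1 m11_2 m11_3 m12_1 m12_2 m12_3 m13_1 m13_2 m13_3 m22_1 m22_2 m22_3 m33_1 m33_2 m33_3)
    (e0 : 0 < B1)
    (e1 : 0 < A2)
    (e2 : 0 < A3)
    (s1 : 0 * A1 + 3 * B1 ≤ m11_1 + m22_1 + m33_1)
    (s2 : 0 * A2 + 3 * B2 ≤ m11_2 + m22_2 + m33_2)
    (s3 : 0 * A3 + 3 * B3 ≤ m11_3 + m22_3 + m33_3) : False := by
  have d0 : (0 < A1 ∧ A2 < A1 + n2) ∨ (0 < B1 ∧ B2 < B1 + n2) := by
    have h := C.t12
    omega
  have d1 : (A1 < A2 ∧ A3 < A2 + n3) ∨ (B1 < B2 ∧ B3 < B2 + n3) := by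
    have h := C.t23
    omega
  have d2 : m12_1 = A1 - 1 ∨ m12_1 = B2 - 1 := by
    have h := C.f12_2
    omega
  have d3 : m12_2 = m12_1 + n2 ∨ m12_2 = B2 - 1 := by
    have h := C.f12_5
    omega
  have d4 : m13_1 = A1 - 1 ∨ m13_1 = B3 - 1 := by
    have h := C.f13_2
    omega
  have d5 : m13_2 = m13_1 + n2 ∨ m13_2 = B3 - 1 := by
    have h := C.f13_5
    omega
  have d6 : m13_3 = m13_2 + n3 ∨ m13_3 = B3 - 1 := by
    have h := C.f13_8
    omega
  have d7 : m22_1 = n1 ∨ m22_1 = A2 - 1 := by
    have h := C.f22_2
    omega
  have d8 : m22_2 = m22_1 + n2 ∨ m22_2 = A2 - 1 := by
    have h := C.f22_5
    omega
  have d9 : m33_1 = n1 ∨ m33_1 = A3 - 1 := by
    have h := C.f33_2
    omega
  have d10 : m33_2 = m33_1 + n2 ∨ m33_2 = A3 - 1 := by
    have h := C.f33_5
    omega
  have d11 : m33_3 = m33_2 + n3 ∨ m33_3 = A3 - 1 := by
    have h := C.f33_8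
    omega
  have d12 : 2 * A1 > m11_1 + m12_1 ∨ 2 * A2 > m11_2 + m12_2 ∨ 2 * A3 > m11_3 + m12_3 ∨ 0 ≥ A1 ∨ 0 ≥ B2 := by
    have h := C.p11_12A
    omega
  have d13 : 2 * B1 > m11_1 + m12_1 ∨ 2 * B2 > m11_2 + m12_2 ∨ 2 * B3 > m11_3 + m12_3 ∨ 0 ≥ A1 ∨ 0 ≥ B2 := by
    have h := C.p11_12B
    omega
  have d14 : 2 * A1 > m11_1 + m13_1 ∨ 2 * A2 > m11_2 + m13_2 ∨ 2 * A3 > m11_3 + m13_3 ∨ 0 ≥ A1 ∨ 0 ≥ B3 := by
    have h := C.p11_13A
    omega
  have d15 : 2 * B1 > m11_1 + m13_1 ∨ 2 * B2 > m11_2 + m13_2 ∨ 2 * B3 > m11_3 + m13_3 ∨ 0 ≥ A1 ∨ 0 ≥ B3 := by
    have h := C.p11_13B
    omega
  have d16 : 2 * A1 > m11_1 + m22_1 ∨ 2 * A2 > m11_2 + m22_2 ∨ 2 * A3 > m11_3 + m22_3 := by
    have h := C.p11_22A
    omega
  have d17 : 2 * B1 > m11_1 + m22_1 ∨ 2 * B2 > m11_2 + m22_2 ∨ 2 * B3 > m11_3 + m22_3 := by
    have h := C.p11_22B
    omega
  have d18 : 2 * A1 > m11_1 + m33_1 ∨ 2 * A2 > m11_2 + m33_2 ∨ 2 * A3 > m11_3 + m33_3 := by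
    have h := C.p11_33A
    omega
  have d19 : 2 * B1 > m11_1 + m33_1 ∨ 2 * B2 > m11_2 + m33_2 ∨ 2 * B3 > m11_3 + m33_3 := by
    have h := C.p11_33B
    omega
  have d20 : 2 * A1 > m12_1 + m13_1 ∨ 2 * A2 > m12_2 + m13_2 ∨ 2 * A3 > m12_3 + m13_3 ∨ 0 ≥ A1 ∨ 0 ≥ B2 ∨ 0 ≥ B3 := by
    have h := C.p12_13A
    omega
  have d21 : 2 * B1 > m12_1 + m13_1 ∨ 2 * B2 > m12_2 + m13_2 ∨ 2 * B3 > m12_3 + m13_3 ∨ 0 ≥ A1 ∨ 0 ≥ B2 ∨ 0 ≥ B3 := by
    have h := C.p12_13B
    omega
  have d22 : 2 * A1 > m12_1 + m22_1 ∨ 2 * A2 > m12_2 + m22_2 ∨ 2 * A3 > m12_3 + m22_3 ∨ 0 ≥ A1 ∨ 0 ≥ B2 := by
    have h := C.p12_22A
    omega
  have d23 : 2 * B1 > m12_1 + m22_1 ∨ 2 * B2 > m12_2 + m22_2 ∨ 2 * B3 > m12_3 + m22_3 ∨ 0 ≥ A1 ∨ 0 ≥ B2 := by
    have h := C.p12_22B
    omega
  have d24 : 2 * A1 > m12_1 + m33_1 ∨ 2 * A2 > m12_2 + m33_2 ∨ 2 * A3 > m12_3 + m33_3 ∨ 0 ≥ A1 ∨ 0 ≥ B2 := by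
    have h := C.p12_33A
    omega
  have d25 : 2 * B1 > m12_1 + m33_1 ∨ 2 * B2 > m12_2 + m33_2 ∨ 2 * B3 > m12_3 + m33_3 ∨ 0 ≥ A1 ∨ 0 ≥ B2 := by
    have h := C.p12_33B
    omega
  have d26 : 2 * A1 > m13_1 + m22_1 ∨ 2 * A2 > m13_2 + m22_2 ∨ 2 * A3 > m13_3 + m22_3 ∨ 0 ≥ A1 ∨ 0 ≥ B3 := by
    have h := C.p13_22A
    omega
  have d27 : 2 * B1 > m13_1 + m22_1 ∨ 2 * B2 > m13_2 + m22_2 ∨ 2 * B3 > m13_3 + m22_3 ∨ 0 ≥ A1 ∨ 0 ≥ B3 := by
    have h := C.p13_22B
    omega
  have d28 : 2 * A1 > m13_1 + m33_1 ∨ 2 * A2 > m13_2 + m33_2 ∨ 2 * A3 > m13_3 + m33_3 ∨ 0 ≥ A1 ∨ 0 ≥ B3 := by
    have h := C.p13_33A
    omega
  have d29 : 2 * B1 > m13_1 + m33_1 ∨ 2 * B2 > m13_2 + m33_2 ∨ 2 * B3 > m13_3 + m33_3 ∨ 0 ≥ A1 ∨ 0 ≥ B3 := by
    have h := C.p13_33B
    omega
  have d30 : 2 * A1 > m22_1 + m33_1 ∨ 2 * A2 > m22_2 + m33_2 ∨ 2 * A3 > m22_3 + m33_3 := by
    have h := C.p22_33A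
    omega
  have d31 : 2 * B1 > m22_1 + m33_1 ∨ 2 * B2 > m22_2 + m33_2 ∨ 2 * B3 > m22_3 + m33_3 := by
    have h := C.p22_33B
    omega
  have d32 : A1 + 1 > n1 ∨ A1 + 1 > A2 ∨ A2 + 1 > A3 ∨ 1 > B1 ∨ B2 + 1 > B1 + n2 ∨ B3 + 1 > B2 + n3 := by
    have h := C.tmzp
    omega
  have d33 : A1 + 1 > n1 ∨ A1 + 2 > A2 ∨ 1 > B1 ∨ B2 + 2 > B1 + n2 := by
    have h := C.tmpp
    omega
  have d34 : A2 + 1 > A1 + n2 ∨ A2 + 2 > A3 ∨ B1 + 1 > B2 ∨ B3 + 2 > B2 + n3 := by
    have h := C.tzmp
    omega
  have d35 : A1 + 1 > A2 ∨ A3 + 2 > A2 + n3 ∨ B2 + 1 > B1 + n2 ∨ B2 + 2 > B3 := by
    have h := C.tzpm
    omega
  have d36 : 1 > A1 ∨ A2 + 2 > A1 + n2 ∨ B1 + 1 > n1 ∨ B1 + 2 > B2 ∨ (A2 ≥ B2 + (-1) ∧ A3 ≥ B3 + (-1)) ∨ B1 + (1) ≥ A1 := by
    have h := C.tpmm
    omega
  have d37 : 1 > A1 ∨ A2 + 2 > A1 + n2 ∨ A2 + 1 > A3 ∨ B1 + 1 > n1 ∨ B1 + 2 > B2 ∨ B3 + 1 > B2 + n3 ∨ B1 + (1) ≥ A1 := by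
    have h := C.tpmz
    omega
  have d38 : 1 > A1 ∨ A2 + 1 > A1 + n2 ∨ A3 + 1 > A2 + n3 ∨ B1 + 1 > n1 ∨ B1 + 1 > B2 ∨ B2 + 1 > B3 ∨ B1 + (1) ≥ A1 := by
    have h := C.tpzm
    omega
  have h6 := C.a0
  have h7 := C.a1
  have h8 := C.a2
  have h9 := C.a3
  have h10 := C.a4
  have h11 := C.a5
  have h12 := C.b0
  have h13 := C.b1
  have h14 := C.b2
  have h15 := C.b3
  have h16 := C.b4
  have h17 := C.b5
  have h18 := C.o0
  have h19 := C.o1
  have h20 := C.o2
  have h21 := C.f11_0
  have h22 := C.f11_1
  have h23 := C.f11_2
  have h24 := C.f12_0
  have h25 := C.f12_1
  have h26 := C.f12_3
  have h27 := C.f12_4
  have h28 := C.f12_6
  have h29 := C.f13_0
  have h30 := C.f13_1
  have h31 := C.f13_3
  have h32 := C.f13_4
  have h33 := C.f13_6
  have h34 := C.f13_7
  have h35 := C.f22_0
  have h36 := C.f22_1
  have h37 := C.f22_3
  have h38 := C.f22_4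
  have h39 := C.f22_6
  have h40 := C.f33_0
  have h41 := C.f33_1
  have h42 := C.f33_3
  have h43 := C.f33_4
  have h44 := C.f33_6
  have h45 := C.f33_7
  clear C
  rcases d2 with _ | _
  · skip
    rcases d3 with _ | _
    · linarith
    · skip
      rcases d4 with _ | _
      · skip
        rcases d12 with _ | _ | _ | _ | _
        · skip
          rcases d0 with ⟨_, _⟩ | ⟨_, _⟩
          · skip
            rcases d1 with ⟨_, _⟩ | ⟨_, _⟩
            · skip
              rcases d5 with _ | _
              · skip
                rcases d6 with _ | _
                · linarith
                · skip
                  rcases d14 with _ | _ | _ | _ | _
                  · skip
                    rcases d20 with _ | _ | _ | _ | _ | _
                    · skip
                      rcases d38 with _ | _ | _ | _ | _ | _ | _
                      · linarith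
                      · linarith
                      · linarith
                      · linarith
                      · linarith
                      · linarith
                      · skip
                        rcases d7 with _ | _
                        · skip
                          rcases d8 with _ | _
                          · linarith
                          · skip
                            rcases d26 with _ | _ | _ | _ | _
                            · skip
                              rcases d21 with _ | _ | _ | _ | _ | _
                              · linarith
                              · linarith
                              · skip
                                rcases d9 with _ | _
                                · skip
                                  rcases d17 with _ | _ | _
                                  · linarith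
                                  · linarith
                                  · linarith
                                · linarith
                              · linarith
                              · linarith
                              · linarith
                            · linarith
                            · linarith
                            · linarith
                            · linarith
                        · skip
                          rcases d8 with _ | _
                          · linarith
                          · skip
                            rcases d26 with _ | _ | _ | _ | _
                            · skip
                              rcases d17 with _ | _ | _
                              · linarith
                              · skip
                                rcases d11 with _ | _
                                · linarith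
                                · skip
                                  rcases d21 with _ | _ | _ | _ | _ | _
                                  · linarith
                                  · skip
                                    rcases d18 with _ | _ | _
                                    · linarith
                                    · linarith
                                    · linarith
                                  · linarith
                                  · linarith
                                  · linarith
                                  · linarith
                              · linarith
                            · linarith
                            · linarith
                            · linarith
                            · linarith
                    · linarith
                    · linarith
                    · linarith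
                    · linarith
                    · linarith
                  · linarith
                  · linarith
                  · linarith
                  · linarith
              · skip
                rcases d6 with _ | _
                · linarith
                · skip
                  rcases d14 with _ | _ | _ | _ | _
                  · skip
                    rcases d15 with _ | _ | _ | _ | _
                    · skip
                      rcases d13 with _ | _ | _ | _ | _
                      · skip
                        rcases d20 with _ | _ | _ | _ | _ | _
                        · skip
                          rcases d7 with _ | _
                          · skip
                            rcases d8 with _ | _
                            · linarith
                            · skip
                              rcases d17 with _ | _ | _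
                              · linarith
                              · skip
                                rcases d9 with _ | _
                                · skip
                                  rcases d11 with _ | _
                                  · linarith
                                  · skip
                                    rcases d19 with _ | _ | _
                                    · linarith
                                    · linarith
                                    · linarith
                                · linarith
                              · linarith
                          · skip
                            rcases d8 with _ | _
                            · linarith
                            · skip
                              rcases d17 with _ | _ | _
                              · linarith
                              · skip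
                                rcases d11 with _ | _
                                · linarith
                                · skip
                                  rcases d21 with _ | _ | _ | _ | _ | _
                                  · linarith
                                  · linarith
                                  · linarith
                                  · linarith
                                  · linarith
                                  · linarith
                              · linarith
                        · linarith
                        · linarith
                        · linarith
                        · linarith
                        · linarith
                      · linarith
                      · linarith
                      · linarith
                      · linarith
                    · linarith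
                    · linarith
                    · linarith
                    · linarith
                  · linarith
                  · linarith
                  · linarith
                  · linarith
            · skip
              rcases d5 with _ | _
              · skip
                rcases d6 with _ | _
                · linarith
                · skip
                  rcases d14 with _ | _ | _ | _ | _
                  · skip
                    rcases d20 with _ | _ | _ | _ | _ | _
                    · skip
                      rcases d7 with _ | _
                      · skip
                        rcases d8 with _ | _
                        · linarith
                        · skip
                          rcases d17 with _ | _ | _
                          · linarith
                          · skip
                            rcases d9 with _ | _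
                            · skip
                              rcases d11 with _ | _
                              · linarith
                              · skip
                                rcases d19 with _ | _ | _
                                · linarith
                                · linarith
                                · skip
                                  rcases d21 with _ | _ | _ | _ | _ | _
                                  · linarith
                                  · skip
                                    rcases d18 with _ | _ | _
                                    · linarith
                                    · linarith
                                    · linarith
                                  · linarith
                                  · linarith
                                  · linarith
                                  · linarith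
                            · linarith
                          · linarith
                      · skip
                        rcases d8 with _ | _
                        · linarith
                        · skip
                          rcases d9 with _ | _
                          · skip
                            rcases d19 with _ | _ | _
                            · linarith
                            · linarith
                            · skip
                              rcases d11 with _ | _
                              · linarith
                              · skip
                                rcases d21 with _ | _ | _ | _ | _ | _
                                · linarith
                                · skip
                                  rcases d18 with _ | _ | _
                                  · linarith
                                  · linarith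
                                  · linarith
                                · linarith
                                · linarith
                                · linarith
                                · linarith
                          · skip
                            rcases d10 with _ | _
                            · linarith
                            · skip
                              rcases d11 with _ | _
                              · linarith
                              · skip
                                rcases d18 with _ | _ | _
                                · skip
                                  rcases d19 with _ | _ | _
                                  · linarith
                                  · linarith
                                  · skip
                                    rcases d21 with _ | _ | _ | _ | _ | _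
                                    · linarith
                                    · linarith
                                    · linarith
                                    · linarith
                                    · linarith
                                    · linarith
                                · linarith
                                · linarith
                    · linarith
                    · linarith
                    · linarith
                    · linarith
                    · linarith
                  · linarith
                  · linarith
                  · linarith
                  · linarith
              · skip
                rcases d6 with _ | _
                · linarith
                · skip
                  rcases d14 with _ | _ | _ | _ | _
                  · skip
                    rcases d15 with _ | _ | _ | _ | _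
                    · skip
                      rcases d13 with _ | _ | _ | _ | _
                      · skip
                        rcases d20 with _ | _ | _ | _ | _ | _
                        · skip
                          rcases d7 with _ | _
                          · skip
                            rcases d8 with _ | _
                            · linarith
                            · skip
                              rcases d17 with _ | _ | _
                              · linarith
                              · skip
                                rcases d11 with _ | _
                                · linarith
                                · skip
                                  rcases d19 with _ | _ | _
                                  · skip
                                    rcases d9 with _ | _
                                    · linarith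
                                    · linarith
                                  · linarith
                                  · linarith
                              · linarith
                          · skip
                            rcases d8 with _ | _
                            · linarith
                            · skip
                              rcases d16 with _ | _ | _
                              · skip
                                rcases d9 with _ | _
                                · skip
                                  rcases d10 with _ | _
                                  · linarith
                                  · skip
                                    rcases d11 with _ | _
                                    · linarith
                                    · skip
                                      rcases d19 with _ | _ | _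
                                      · linarith
                                      · linarith
                                      · skip
                                        rcases d17 with _ | _ | _
                                        · linarith
                                        · linarith
                                        · linarith
                                · skip
                                  rcases d10 with _ | _
                                  · linarith
                                  · skip
                                    rcases d11 with _ | _
                                    · linarith
                                    · skip
                                      rcases d19 with _ | _ | _
                                      · linarith
                                      · linarith
                                      · skip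
                                        rcases d17 with _ | _ | _
                                        · linarith
                                        · linarith
                                        · linarith
                              · linarith
                              · linarith
                        · linarith
                        · linarith
                        · linarith
                        · linarith
                        · linarith
                      · linarith
                      · linarith
                      · linarith
                      · linarith
                    · linarith
                    · linarith
                    · linarith
                    · linarith
                  · linarith
                  · linarith
                  · linarith
                  · linarith
          · skip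
            rcases d1 with ⟨_, _⟩ | ⟨_, _⟩
            · skip
              rcases d5 with _ | _
              · skip
                rcases d6 with _ | _
                · linarith
                · skip
                  rcases d21 with _ | _ | _ | _ | _ | _
                  · linarith
                  · linarith
                  · skip
                    rcases d17 with _ | _ | _
                    · skip
                      rcases d7 with _ | _
                      · linarith
                      · linarith
                    · linarith
                    · linarith
                  · linarith
                  · linarith
                  · linarith
              · skip
                rcases d6 with _ | _
                · linarith
                · skip
                  rcases d14 with _ | _ | _ | _ | _
                  · skip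
                    rcases d15 with _ | _ | _ | _ | _
                    · skip
                      rcases d13 with _ | _ | _ | _ | _
                      · skip
                        rcases d20 with _ | _ | _ | _ | _ | _
                        · skip
                          rcases d7 with _ | _
                          · skip
                            rcases d8 with _ | _
                            · linarith
                            · skip
                              rcases d17 with _ | _ | _
                              · linarith
                              · skip
                                rcases d9 with _ | _
                                · skip
                                  rcases d11 with _ | _
                                  · linarith
                                  · skip
                                    rcases d19 with _ | _ | _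
                                    · linarith
                                    · linarith
                                    · linarith
                                · linarith
                              · linarith
                          · skip
                            rcases d8 with _ | _
                            · linarith
                            · skip
                              rcases d17 with _ | _ | _
                              · linarith
                              · skip
                                rcases d11 with _ | _
                                · linarith
                                · skip
                                  rcases d21 with _ | _ | _ | _ | _ | _
                                  · linarith
                                  · linarith
                                  · linarith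
                                  · linarith
                                  · linarith
                                  · linarith
                              · linarith
                        · linarith
                        · linarith
                        · linarith
                        · linarith
                        · linarith
                      · linarith
                      · linarith
                      · linarith
                      · linarith
                    · linarith
                    · linarith
                    · linarith
                    · linarith
                  · linarith
                  · linarith
                  · linarith
                  · linarith
            · skip
              rcases d5 with _ | _
              · skip
                rcases d6 with _ | _
                · linarith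
                · skip
                  rcases d21 with _ | _ | _ | _ | _ | _
                  · linarith
                  · linarith
                  · skip
                    rcases d19 with _ | _ | _
                    · skip
                      rcases d9 with _ | _
                      · linarith
                      · linarith
                    · linarith
                    · linarith
                  · linarith
                  · linarith
                  · linarith
              · skip
                rcases d6 with _ | _
                · linarith
                · skip
                  rcases d14 with _ | _ | _ | _ | _
                  · skip
                    rcases d15 with _ | _ | _ | _ | _
                    · skip
                      rcases d13 with _ | _ | _ | _ | _
                      · skip
                        rcases d20 with _ | _ | _ | _ | _ | _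
                        · skip
                          rcases d7 with _ | _
                          · skip
                            rcases d8 with _ | _
                            · linarith
                            · skip
                              rcases d17 with _ | _ | _
                              · linarith
                              · skip
                                rcases d9 with _ | _
                                · skip
                                  rcases d11 with _ | _
                                  · linarith
                                  · skip
                                    rcases d19 with _ | _ | _
                                    · linarith
                                    · linarith
                                    · linarith
                                · linarith
                              · linarith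
                          · skip
                            rcases d8 with _ | _
                            · linarith
                            · skip
                              rcases d16 with _ | _ | _
                              · skip
                                rcases d9 with _ | _
                                · skip
                                  rcases d10 with _ | _
                                  · linarith
                                  · skip
                                    rcases d11 with _ | _
                                    · linarith
                                    · skip
                                      rcases d19 with _ | _ | _
                                      · linarith
                                      · linarith
                                      · skip
                                        rcases d17 with _ | _ | _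
                                        · linarith
                                        · linarith
                                        · linarith
                                · skip
                                  rcases d10 with _ | _
                                  · linarith
                                  · skip
                                    rcases d11 with _ | _
                                    · linarith
                                    · skip
                                      rcases d19 with _ | _ | _
                                      · linarith
                                      · linarith
                                      · skip
                                        rcases d17 with _ | _ | _
                                        · linarith
                                        · linarith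
                                        · linarith
                              · linarith
                              · linarith
                        · linarith
                        · linarith
                        · linarith
                        · linarith
                        · linarith
                      · linarith
                      · linarith
                      · linarith
                      · linarith
                    · linarith
                    · linarith
                    · linarith
                    · linarith
                  · linarith
                  · linarith
                  · linarith
                  · linarith
        · linarith
        · linarith
        · linarith
        · linarith
      · linarith
  · linarith

end Pool.Agent.Helper46.TQ
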